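import Mathlib

set_option autoImplicit false

open Set Function
open Cardinal hiding univ

namespace Pool.Agent.Results.MP_c0a48b_al.ConsistentNo

/-- some family of continuum many sets of reals lies in no countably generated σ-algebra on `ℝ` -/
def Kunen : Prop := ∃ R : ℝ → Set ℝ, ∀ m : MeasurableSpace ℝ,
  @MeasurableSpace.CountablyGenerated ℝ m → ∃ b, ¬ @MeasurableSet ℝ m (R b)

/-- families of operations on `ℕ`, `C n` being the `(n+1)`-ary ones -/
abbrev Ops := ∀ n : ℕ, Set ((Fin (n+1) → ℕ) → ℕ)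

/-- local clones on `ℕ` -/
def IsLocalClone (C : Ops) : Prop :=
  (∀ (n : ℕ) (i : Fin (n+1)), (fun x : Fin (n+1) → ℕ => x i) ∈ C n) ∧
  (∀ (n m : ℕ) (g : (Fin (n+1) → ℕ) → ℕ) (hs : Fin (n+1) → (Fin (m+1) → ℕ) → ℕ),
    g ∈ C n → (∀ i, hs i ∈ C m) → (fun x : Fin (m+1) → ℕ => g (fun i => hs i x)) ∈ C m) ∧
  (∀ (n : ℕ) (g : (Fin (n+1) → ℕ) → ℕ),
    (∀ F : Finset (Fin (n+1) → ℕ), ∃ h ∈ C n, ∀ x ∈ F, h x = g x) → g ∈ C n)

abbrev K := Σ n : ℕ, List ((Fin (n+1) → ℕ) × ℕ)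

def code (C : Ops) : Set K := {k | ∃ h ∈ C k.1, ∀ p ∈ k.2, h p.1 = p.2}

inductive Gen (S : Set K) : K → Prop
  | base {k} : k ∈ S → Gen S k
  | proj {n} (i : Fin (n+1)) {l : List ((Fin (n+1) → ℕ) × ℕ)} : (∀ p ∈ l, p.1 i = p.2) → Gen S ⟨n, l⟩
  | comp {n m} {l : List ((Fin (m+1) → ℕ) × ℕ)} (l0 : List ((Fin (n+1) → ℕ) × ℕ))
      (ls : Fin (n+1) → List ((Fin (m+1) → ℕ) × ℕ)) : Gen S ⟨n, l0⟩ → (∀ i, Gen S ⟨m, ls i⟩) →
      (∀ p ∈ l, ∃ y : Fin (n+1) → ℕ, (∀ i, (p.1, y i) ∈ ls i) ∧ (y, p.2) ∈ l0) → Gen S ⟨m, l⟩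

theorem Gen.mono {S T : Set K} (h : S ⊆ T) {k : K} (g : Gen S k) : Gen T k := by
  induction g with
  | base a => exact .base (h a)
  | proj i a => exact .proj i a
  | comp l0 ls _ _ c a b => exact .comp l0 ls a b c

theorem Gen.fin {S S' : Set K} {k : K} (g : Gen (S ∪ S') k) :
    ∃ t : Finset K, ↑t ⊆ S ∧ Gen (↑t ∪ S') k := by
  classical
  induction g with
  | @base k a =>
    rcases a with a | a
    · exact ⟨{k}, by simpa using a, .base (Or.inl (by simp))⟩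
    · exact ⟨∅, by simp, .base (Or.inr a)⟩
  | proj i a => exact ⟨∅, by simp, .proj i a⟩
  | comp l0 ls _ _ c a b =>
    obtain ⟨t, t1, t2⟩ := a
    choose u u1 u2 using b
    refine ⟨t ∪ Finset.univ.biUnion u, ?_, .comp l0 ls (t2.mono ?_) (fun i => (u2 i).mono ?_) c⟩
    · intro x hx
      simp only [Finset.coe_union, Finset.coe_biUnion, mem_union, mem_iUnion] at hx
      rcases hx with hx | ⟨i, -, hx⟩
      exacts [t1 hx, u1 i hx]
    · exact union_subset_union_left _ (by simp)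
    · refine union_subset_union_left _ fun x hx => ?_
      simp only [Finset.coe_union, Finset.coe_biUnion, mem_union, mem_iUnion]
      exact Or.inr ⟨i, by simp, hx⟩

theorem Gen.sound {S : Set K} {E : Ops} (hE : IsLocalClone E) (h : S ⊆ code E) {k : K}
    (g : Gen S k) : k ∈ code E := by
  induction g with
  | base a => exact h a
  | proj i a => exact ⟨_, hE.1 _ i, a⟩
  | comp l0 ls _ _ c a b =>
    obtain ⟨g, g1, g2⟩ := a
    choose u u1 u2 using b
    refine ⟨_, hE.2.1 _ _ g u g1 u1, fun p hp => ?_⟩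
    obtain ⟨y, y1, y2⟩ := c p hp
    have : (fun i => u i p.1) = y := funext fun i => u2 i _ (y1 i)
    simp only [this]
    exact g2 _ y2

def gen (S : Set K) : Ops := fun n => {g | ∀ l, (∀ p ∈ l, g p.1 = p.2) → Gen S ⟨n, l⟩}

theorem gen_clone (S : Set K) : IsLocalClone (gen S) := by
  classical
  refine ⟨fun n i l hl => .proj i hl, fun n m g hs hg hh l hl => ?_, fun n g h l hl => ?_⟩
  · refine .comp (l.map fun p => (fun i => hs i p.1, p.2)) (fun i => l.map fun p => (p.1, hs i p.1))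
      (hg _ fun p hp => ?_) (fun i => hh i _ fun p hp => ?_) fun p hp =>
      ⟨fun i => hs i p.1, fun i => List.mem_map.2 ⟨p, hp, rfl⟩, List.mem_map.2 ⟨p, hp, rfl⟩⟩
    · obtain ⟨q, hq, rfl⟩ := List.mem_map.1 hp
      exact hl q hq
    · obtain ⟨q, hq, rfl⟩ := List.mem_map.1 hp
      rfl
  · obtain ⟨f, f1, f2⟩ := h (l.map Prod.fst).toFinset
    exact f1 l fun p hp => (f2 _ (by simpa using ⟨p.2, hp⟩)).trans (hl p hp)

theorem join_iff {C D J T : Ops} (hJ : IsLocalClone J) (h1 : C ≤ J) (h2 : D ≤ J)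
    (h3 : ∀ E, IsLocalClone E → C ≤ E → D ≤ E → J ≤ E) :
    T ≤ J ↔ ∀ k ∈ code T, Gen (code C ∪ code D) k := by
  constructor
  · rintro h ⟨n, l⟩ ⟨g, g1, g2⟩
    exact h3 _ (gen_clone (code C ∪ code D)) (fun n g hg l hl => .base (Or.inl ⟨g, hg, hl⟩))
      (fun n g hg l hl => .base (Or.inr ⟨g, hg, hl⟩)) n (h n g1) l g2
  · intro h n g hg
    refine hJ.2.2 n g fun F => ?_
    obtain ⟨u, u1, u2⟩ := (h ⟨n, F.toList.map fun x => (x, g x)⟩ ⟨g, hg, fun p hp => by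
      obtain ⟨q, -, rfl⟩ := List.mem_map.1 hp; rfl⟩).sound hJ (by
      rintro k (⟨g, a, b⟩ | ⟨g, a, b⟩)
      exacts [⟨g, h1 _ a, b⟩, ⟨g, h2 _ a, b⟩])
    exact ⟨u, u1, fun x hx => u2 (x, g x) (List.mem_map.2 ⟨x, Finset.mem_toList.2 hx, rfl⟩)⟩

def Small (R : ℝ → Set ℝ) (s : Set (ℝ ⊕ ℝ)) : Prop :=
  InjOn Sum.isLeft s ∧ ∀ a b, .inl a ∈ s → .inr b ∈ s → a ∉ R b

theorem Small.mono {R : ℝ → Set ℝ} {s t : Set (ℝ ⊕ ℝ)} (h : Small R t) (e : s ⊆ t) : Small R s :=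
  ⟨h.1.mono e, fun a b x y => h.2 a b (e x) (e y)⟩

theorem Small.fin {R : ℝ → Set ℝ} {s : Set (ℝ ⊕ ℝ)} (h : Small R s) : s.Finite :=
  Finite.of_injOn (t := univ) (mapsTo_univ _ _) h.1 finite_univ

theorem Small.card {R : ℝ → Set ℝ} {s : Set (ℝ ⊕ ℝ)} (h : Small R s) : s.ncard ≤ 2 := by
  simpa using ncard_le_ncard_of_injOn (t := univ) _ (mapsTo_univ _ _) h.1 finite_univ

def L (R : ℝ → Set ℝ) := {s : Set (ℝ ⊕ ℝ) // s = univ ∨ Small R s}

instance (R : ℝ → Set ℝ) : PartialOrder (L R) := Subtype.partialOrder _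

instance (R : ℝ → Set ℝ) : InfSet (L R) := ⟨fun S => ⟨⋂ a ∈ S, a.1, by
  by_cases h : ∃ a ∈ S, Small R a.1
  · obtain ⟨a, ha, h⟩ := h
    exact Or.inr (h.mono (biInter_subset_of_mem ha))
  · exact Or.inl (eq_univ_of_forall fun x => mem_iInter₂.2 fun a ha =>
      (a.2.resolve_right fun e => h ⟨a, ha, e⟩).symm ▸ mem_univ x)⟩⟩

noncomputable instance (R : ℝ → Set ℝ) : CompleteLattice (L R) :=
  completeLatticeOfInf (L R) fun _ =>
    ⟨fun _ ha => biInter_subset_of_mem ha, fun _ h => subset_iInter₂ fun _ ha => h ha⟩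

def pt (R : ℝ → Set ℝ) (x : ℝ ⊕ ℝ) : L R := ⟨{x}, Or.inr ⟨injOn_singleton _ _, by
  rintro a b h1 h2; cases (h1 : _ = x).trans (h2 : _ = x).symm⟩⟩

def top (R : ℝ → Set ℝ) : L R := ⟨univ, Or.inl rfl⟩

theorem sup_iff (R : ℝ → Set ℝ) (a b : ℝ) : pt R (.inl a) ⊔ pt R (.inr b) = top R ↔ a ∈ R b := by
  constructor
  · intro h
    by_contra hn
    let c : L R := ⟨{.inl a, .inr b}, Or.inr ⟨by
      rintro _ (rfl | rfl) _ (rfl | rfl) e <;> simp_all, by
      rintro x y (h1 | h1) (h2 | h2) <;> cases h1 <;> cases h2; exact hn⟩⟩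
    have : pt R (.inl a) ⊔ pt R (.inr b) ≤ c :=
      sup_le (singleton_subset_iff.2 (Or.inl rfl)) (singleton_subset_iff.2 (Or.inr rfl))
    rw [h] at this
    have h2 : (Sum.inl (a + 1) : ℝ ⊕ ℝ) ∈ c.1 := this (mem_univ _)
    simp [c] at h2
  · intro h
    refine Subtype.ext ((pt R (.inl a) ⊔ pt R (.inr b)).2.resolve_right fun e => e.2 a b ?_ ?_ h)
    · exact (le_sup_left : pt R (.inl a) ≤ _) rfl
    · exact (le_sup_right : pt R (.inr b) ≤ _) rfl

theorem result (hK : Kunen) : ∃ (L : Type) (_ : Lattice L),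
    (∀ s : Set L, IsChain (· ≤ ·) s → s.encard ≤ 4) ∧ #L = 𝔠 ∧
    ¬ ∃ f : L → Ops, Injective f ∧ (∀ a, IsLocalClone (f a)) ∧
      (∀ a b, f a ≤ f (a ⊔ b) ∧ f b ≤ f (a ⊔ b)) ∧
      (∀ a b C, IsLocalClone C → f a ≤ C → f b ≤ C → f (a ⊔ b) ≤ C) := by
  classical
  obtain ⟨R, hR⟩ := hK
  refine ⟨L R, inferInstance, fun s hs => ?_, le_antisymm ?_ ?_, ?_⟩
  · let rk : L R → ℕ := fun a => if a.1 = univ then 3 else a.1.ncard
    have h3 : ∀ a, rk a < 4 := fun a => by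
      by_cases h : a.1 = univ
      · simp [rk, h]
      · have := (a.2.resolve_left h).card
        simp only [rk, if_neg h]; omega
    have hlt : ∀ a b : L R, a ≤ b → a ≠ b → rk a < rk b := fun a b h e => by
      have ha : a.1 ≠ univ := fun x => e (Subtype.ext (subset_antisymm h (by rw [x]; exact subset_univ _)))
      by_cases hb : b.1 = univ
      · have := (a.2.resolve_left ha).card
        simp only [rk, if_neg ha, if_pos hb]; omega
      · simp only [rk, if_neg ha, if_neg hb]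
        exact ncard_lt_ncard (ssubset_of_ne_of_subset (fun x => e (Subtype.ext x)) h)
          (b.2.resolve_left hb).fin
    have := encard_le_encard_of_injOn (f := rk) (s := s) (t := ↑(Finset.range 4))
      (fun a _ => by simpa using h3 a) fun a ha b hb e => by
        by_contra hn
        rcases hs ha hb hn with h | h
        · exact (hlt a b h hn).ne e
        · exact (hlt b a h (Ne.symm hn)).ne' e
    rwa [encard_coe_eq_coe_finsetCard, Finset.card_range] at this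
  · have h1 : #(L R) ≤ #(insert univ (range fun t : Finset (ℝ ⊕ ℝ) => (t : Set (ℝ ⊕ ℝ))) :
        Set (Set (ℝ ⊕ ℝ))) :=
      mk_le_mk_of_subset (s := {s : Set (ℝ ⊕ ℝ) | s = univ ∨ Small R s}) fun s hs =>
        hs.imp id fun e => ⟨e.fin.toFinset, by simp⟩
    refine h1.trans (mk_insert_le.trans ?_)
    have h2 : #(range fun t : Finset (ℝ ⊕ ℝ) => (t : Set (ℝ ⊕ ℝ))) ≤ 𝔠 :=
      mk_range_le.trans (by simp [mk_real])
    exact (add_le_add h2 (one_le_aleph0.trans aleph0_le_continuum)).trans continuum_add_self.le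
  · rw [← mk_real]
    exact mk_le_of_injective (f := fun a => pt R (.inl a)) fun a b e =>
      Sum.inl_injective (singleton_injective (congrArg Subtype.val e))
  rintro ⟨f, hf, h0, h1, h2⟩
  let A : K → Set ℝ := fun j => {a | j ∈ code (f (pt R (.inl a)))}
  obtain ⟨b, hb⟩ := hR (.generateFrom (range A)) 
    (@MeasurableSpace.CountablyGenerated.mk ℝ (.generateFrom (range A)) ⟨_, countable_range A, rfl⟩)
  refine hb ?_
  have : R b = ⋂ k ∈ code (f (top R)), ⋃ (t : Finset K),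
      ⋃ (_ : Gen (↑t ∪ code (f (pt R (.inr b)))) k), ⋂ j ∈ t, A j := by
    ext a
    have e1 : a ∈ R b ↔ f (top R) ≤ f (pt R (.inl a) ⊔ pt R (.inr b)) := by
      rw [← sup_iff]
      refine ⟨fun e => by rw [e], fun e => hf (le_antisymm ?_ e)⟩
      have := (h1 (pt R (.inl a) ⊔ pt R (.inr b)) (top R)).1
      rwa [sup_eq_right.2 (show _ ≤ top R from subset_univ _)] at this
    rw [e1, join_iff (h0 _) (h1 _ _).1 (h1 _ _).2 (h2 _ _)]
    simp only [mem_iInter, mem_iUnion, exists_prop]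
    exact forall₂_congr fun k _ => ⟨fun g => by
      obtain ⟨t, t1, t2⟩ := g.fin
      exact ⟨t, t2, fun j hj => t1 hj⟩, fun ⟨t, t2, t1⟩ =>
      t2.mono (union_subset_union_left _ fun j hj => t1 j hj)⟩
  rw [this]
  exact MeasurableSet.biInter (to_countable _) fun k _ => MeasurableSet.iUnion fun t =>
    MeasurableSet.iUnion fun _ => MeasurableSet.biInter (to_countable _) fun j _ =>
      MeasurableSpace.measurableSet_generateFrom ⟨j, rfl⟩

end Pool.Agent.Results.MP_c0a48b_al.ConsistentNo
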